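import Pool.Agent.Helper20.FR.St

/-!
# Project R20, module AS: assembly
-/

set_option autoImplicit false

open Topology Filter

namespace Pool.Agent.Helper41.R20

open Pool.Agent.Helper20.FA
open Pool.Agent.Helper20.FR

/-- the double sequence is uniformly small -/
private theorem dbl {A : Type} [NonUnitalRing A] [Module ℂ A] (r : Seminorm ℂ A)
    (F : ℕ → DA r →ₗ[ℂ] ℂ)
    (hF : ∀ l : ℕ → DA r, (∀ n, ‖l n‖ ≤ 1) → (∀ a, Tendsto (fun n => (l n).at a) atTop (𝓝 0)) →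
      Tendsto (fun n => F n (l n)) atTop (𝓝 0))
    (l : ℕ → DA r) (hl : ∀ j, ‖l j‖ ≤ 1) (hl0 : ∀ a, Tendsto (fun j => (l j).at a) atTop (𝓝 0))
    (ε : ℝ) (hε : 0 < ε) : ∃ i : ℕ, ∃ N : ℕ, ∀ n ≥ N, ∀ j ≥ i, ‖F n (l j)‖ ≤ ε := by
  by_contra hcon
  push Not at hcon
  have hfr : ∀ i : ℕ, ∃ᶠ n in atTop, ∃ j ≥ i, ε < ‖F n (l j)‖ := by
    intro i
    rw [frequently_atTop]
    intro N
    obtain ⟨n, hn, j, hj, h⟩ := hcon i N
    exact ⟨n, hn, j, hj, h⟩
  obtain ⟨φ, hφ, hP⟩ := extraction_forall_of_frequently hfr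
  choose J hJ hJε using hP
  have hinj : Function.Injective φ := hφ.injective
  obtain ⟨l', hl'⟩ : ∃ l' : ℕ → DA r, l' = Function.extend φ (fun i => l (J i)) 0 := ⟨_, rfl⟩
  have e1 : ∀ i, l' (φ i) = l (J i) := by
    intro i
    rw [hl', hinj.extend_apply]
  have e2 : ∀ n, (¬ ∃ i, φ i = n) → l' n = 0 := by
    intro n hn
    rw [hl', Function.extend_apply' _ _ _ hn]
    rfl
  have h1 : ∀ n, ‖l' n‖ ≤ 1 := by
    intro n
    by_cases hn : ∃ i, φ i = n
    · obtain ⟨i, rfl⟩ := hn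
      rw [e1]
      exact hl _
    · rw [e2 n hn, norm_zero]
      exact zero_le_one
  have h2 : ∀ a, Tendsto (fun n => (l' n).at a) atTop (𝓝 0) := by
    intro a
    rw [Metric.tendsto_atTop]
    intro δ hδ
    obtain ⟨N0, hN0⟩ := Metric.tendsto_atTop.1 (hl0 a) δ hδ
    refine ⟨φ N0, fun n hn => ?_⟩
    by_cases hi : ∃ i, φ i = n
    · obtain ⟨i, rfl⟩ := hi
      rw [e1]
      exact hN0 _ ((hφ.le_iff_le.1 hn).trans (hJ i))
    · rw [e2 n hi]
      have : (0 : DA r).at a = 0 := rfl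
      rw [this, dist_self]
      exact hδ
  have h3 := (hF l' h1 h2).comp hφ.tendsto_atTop
  obtain ⟨N, hN⟩ := Metric.tendsto_atTop.1 h3 ε hε
  have h4 := hN N le_rfl
  rw [Function.comp_apply, e1, dist_zero_right] at h4
  exact absurd (hJε N) (not_lt.2 h4.le)

theorem hAS (hUL : StUL) (hDI : StDI) : StAS := by
  intro A _ _ _ _ r q hm x hx F C hC hb hact hseq
  obtain ⟨G, hG⟩ := hUL (DA r) F (fun l => C * ‖l‖) hb
  -- closed conditions
  have hcl : ∀ (v : DA r) (K : Set ℂ), IsClosed K → (∀ n, F n v ∈ K) → G v ∈ K := by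
    intro v K hK hn
    by_contra h
    obtain ⟨n, hn'⟩ := (hG v Kᶜ (hK.isOpen_compl.mem_nhds h)).exists
    exact hn' (hn n)
  have hG1 : ∀ l : DA r, ‖G l‖ ≤ C * ‖l‖ := fun l =>
    hcl l {z | ‖z‖ ≤ C * ‖l‖} (isClosed_le continuous_norm continuous_const) (fun n => hb n l)
  have hG2 : ∀ (c : A) (l : DA r), ‖l.at c + G (SA.B r hm (SA.of r c) l)‖ ≤ C * q c * ‖l‖ :=
    fun c l => hcl (SA.B r hm (SA.of r c) l) {z | ‖l.at c + z‖ ≤ C * q c * ‖l‖}
      (isClosed_le (by fun_prop) continuous_const) (fun n => hact n c l)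
  have hG3 : ∀ l : ℕ → DA r, (∀ j, ‖l j‖ ≤ 1) → (∀ a, Tendsto (fun j => (l j).at a) atTop (𝓝 0)) →
      Tendsto (fun j => G (l j)) atTop (𝓝 0) := by
    intro l hl hl0
    rw [Metric.tendsto_atTop]
    intro ε hε
    obtain ⟨i, N, hN⟩ := dbl r F hseq l hl hl0 (ε / 2) (by positivity)
    refine ⟨i, fun j hj => ?_⟩
    rw [dist_zero_right]
    by_contra h
    push Not at h
    have h1 : {z : ℂ | ε / 2 < ‖z‖} ∈ 𝓝 (G (l j)) :=
      (isOpen_lt continuous_const continuous_norm).mem_nhds (by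
        change ε / 2 < ‖G (l j)‖
        linarith)
    obtain ⟨n, hn, hn'⟩ := ((hG (l j) _ h1).and_eventually (eventually_ge_atTop N)).exists
    exact absurd hn (not_lt.2 (hN n hn' j hj))
  have hD := hDI (SA r) (fun k => SA.of r (x k)) (fun z ε hε => hx z ε hε) G C hG1
    (fun l hl hl0 => hG3 l hl (fun a => hl0 (SA.of r a)))
  have hk : ∀ k : ℕ, ∃ z : SA r, ∀ l : DA r, ‖G l - l z‖ ≤ (1 / 2 : ℝ) ^ k * ‖l‖ :=
    fun k => hD ((1 / 2 : ℝ) ^ k) (by positivity)
  choose α hα using hk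
  have hBn : ∀ (c : A) (l : DA r), ‖SA.B r hm (SA.of r c) l‖ ≤ r c * ‖l‖ := by
    intro c l
    refine ContinuousLinearMap.opNorm_le_bound _ (mul_nonneg (apply_nonneg r c) (norm_nonneg _))
      fun a => ?_
    have h1 : (SA.B r hm (SA.of r c) l) a = l.at ((show A from a) * c) := rfl
    have h2 : ‖a‖ = r (show A from a) := rfl
    rw [h1, h2]
    refine (DA.bd l _).trans ?_
    calc ‖l‖ * r ((show A from a) * c) ≤ ‖l‖ * (r (show A from a) * r c) :=
          mul_le_mul_of_nonneg_left (hm _ _) (norm_nonneg _)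
      _ = r c * ‖l‖ * r (show A from a) := by ring
  have hdual : ∀ (z : A) (M : ℝ), 0 ≤ M → (∀ l : DA r, ‖l.at z‖ ≤ M * ‖l‖) → r z ≤ M := by
    intro z M hM h
    have := NormedSpace.norm_le_dual_bound ℂ (SA.of r z) hM h
    exact this
  refine ⟨fun k => α k, ?_, ?_⟩
  · intro ε hε
    obtain ⟨N, hN⟩ := exists_pow_lt_of_lt_one (half_pos hε) (by norm_num : (1 / 2 : ℝ) < 1)
    refine ⟨N, fun k hk => ?_⟩
    have hpk : (1 / 2 : ℝ) ^ k ≤ (1 / 2) ^ N := pow_le_pow_of_le_one (by norm_num) (by norm_num) hk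
    refine hdual (α k - α N) ε hε.le fun l => ?_
    have e : l.at ((show A from α k) - (show A from α N)) = (G l - l (α N)) - (G l - l (α k)) := by
      have : l.at ((show A from α k) - (show A from α N)) = l (α k) - l (α N) := map_sub l _ _
      rw [this]
      ring
    refine le_trans (le_of_eq (congrArg norm e)) ((norm_sub_le _ _).trans ?_)
    have h1 := hα N l
    have h2 := hα k l
    have h3 : 0 ≤ ‖l‖ := norm_nonneg _
    nlinarith
  · intro k c
    refine hdual _ _ (by have := apply_nonneg q c; have := apply_nonneg r c; positivity)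
      fun l => ?_
    obtain ⟨β, hβ⟩ : ∃ β : DA r, β = SA.B r hm (SA.of r c) l := ⟨_, rfl⟩
    have e : l.at (c + (show A from α k) * c) = (l.at c + G β) - (G β - β (α k)) := by
      have h1 : l.at (c + (show A from α k) * c) = l.at c + l.at ((show A from α k) * c) :=
        map_add l _ _
      have h2 : β (α k) = l.at ((show A from α k) * c) := by rw [hβ]; rfl
      rw [h1, h2]
      ring
    refine le_trans (le_of_eq (congrArg norm e)) ((norm_sub_le _ _).trans ?_)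
    have h1 := hG2 c l
    rw [← hβ] at h1
    have h2 := hα k β
    have h3 := hBn c l
    rw [← hβ] at h3
    have h4 : (1 / 2 : ℝ) ^ k * ‖β‖ ≤ (1 / 2 : ℝ) ^ k * (r c * ‖l‖) :=
      mul_le_mul_of_nonneg_left h3 (by positivity)
    calc ‖l.at c + G β‖ + ‖G β - β (α k)‖ ≤ C * q c * ‖l‖ + (1 / 2 : ℝ) ^ k * (r c * ‖l‖) :=
          add_le_add h1 (h2.trans h4)
      _ = (C * q c + (1 / 2) ^ k * r c) * ‖l‖ := by ring

end Pool.Agent.Helper41.R20
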